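import Pool.Agent.W5h18.ColInd.Coinf

set_option autoImplicit false
set_option linter.unusedSectionVars false

open Cardinal Order Set

namespace Pool.Agent.W5h18.ColInd

open Pool.Agent.Results.MP_279ba3_co.ColoringNumberStep

theorem exists_omega1 : ∃ (I : Type) (_ : LinearOrder I) (_ : WellFoundedLT I) (_ : Nonempty I),
    (∀ a : I, (Set.Iio a).Countable) ∧ (∀ s : Set I, s.Countable → ∃ b, ∀ x ∈ s, x < b) := by
  have h1 : ∀ a : (Cardinal.ord (Order.succ ℵ₀) : Ordinal.{0}).ToType, (Set.Iio a).Countable := by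
    intro a
    have h2 : #(Set.Iio a) < #((Cardinal.ord (Order.succ ℵ₀) : Ordinal.{0}).ToType) := by
      apply Cardinal.mk_Iio_lt
      simp
    rw [Cardinal.mk_ord_toType, Order.lt_succ_iff] at h2
    exact Cardinal.le_aleph0_iff_set_countable.1 h2
  have hcard : ℵ₀ < #((Cardinal.ord (Order.succ ℵ₀) : Ordinal.{0}).ToType) := by
    rw [Cardinal.mk_ord_toType]
    exact Order.lt_succ _
  refine ⟨(Cardinal.ord (Order.succ ℵ₀) : Ordinal.{0}).ToType, inferInstance, inferInstance, ?_,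
    h1, ?_⟩
  · rw [← Cardinal.mk_ne_zero_iff]
    exact (Cardinal.aleph0_pos.trans hcard).ne'
  · intro s hs
    have h2 : (⋃ x ∈ s, Set.Iic x).Countable := by
      apply hs.biUnion
      intro x _
      have h3 : Set.Iic x = insert x (Set.Iio x) := by
        ext y
        simp only [Set.mem_Iic, Set.mem_insert_iff, Set.mem_Iio]
        exact le_iff_eq_or_lt
      rw [h3]
      exact (h1 x).insert x
    by_contra hcon
    push Not at hcon
    have h3 : (⋃ x ∈ s, Set.Iic x) = Set.univ := by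
      ext y
      simp only [Set.mem_iUnion, Set.mem_Iic, Set.mem_univ, iff_true]
      obtain ⟨x, hx, h⟩ := hcon y
      exact ⟨x, hx, h⟩
    rw [h3] at h2
    have h4 := Cardinal.le_aleph0_iff_set_countable.2 h2
    rw [Cardinal.mk_univ] at h4
    exact absurd hcard (not_lt.2 h4)

variable {I : Type} [LinearOrder I] {r : ℕ}

theorem ctbl_below {a : I} (h : (Set.Iio a).Countable) : {v : Vx I r | v.1 < a}.Countable := by
  have : {v : Vx I r | v.1 < a} ⊆ Set.Iio a ×ˢ (Set.univ : Set (ℕ ⊕ (ℕ × ℕ × L r))) := by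
    intro v hv
    exact ⟨hv, trivial⟩
  exact (h.prod (Set.to_countable _)).mono this

theorem exists_gadget (a : I) (hct : (Set.Iio a).Countable) (l : ℕ → I) (hl : StrictMono l)
    (hla : ∀ j, l j < a) (hcof : ∀ b < a, ∃ j, b < l j) (F : Set (Vx I r)) (hF : F.Finite)
    (hFa : ∀ x ∈ F, x.1 < a) :
    ∃ (lad : ℕ → I) (gap : ℕ → Vx I r × Vx I r), StrictMono lad ∧ (∀ j, lad j < a) ∧
      (∀ b < a, ∃ j, b < lad j) ∧ (∀ x ∈ F, x.1 < lad 0) ∧ (∀ j, (gap j).1 ≠ (gap j).2) ∧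
      (∀ j, (gap j).1.1 < lad j ∧ (gap j).2.1 < lad j) ∧
      (∀ j, (gap j).1 ∉ F ∧ (gap j).2 ∉ F) ∧
      (∀ x y : Vx I r, x ≠ y → x.1 < a → y.1 < a → x ∉ F → y ∉ F → ∃ j, gap j = (x, y)) := by
  classical
  -- the shift
  have h1 : ∃ s : ℕ, ∀ x ∈ F, x.1 < l s := by
    have h2 : ∀ x : Vx I r, ∃ j, x ∈ F → x.1 < l j := by
      intro x
      by_cases hx : x ∈ F
      · obtain ⟨j, hj⟩ := hcof x.1 (hFa x hx)
        exact ⟨j, fun _ => hj⟩
      · exact ⟨0, fun h => absurd h hx⟩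
    choose g hg using h2
    obtain ⟨s, hs⟩ := (hF.image g).bddAbove
    exact ⟨s, fun x hx => (hg x hx).trans_le (hl.monotone (hs ⟨x, hx, rfl⟩))⟩
  obtain ⟨s, hs⟩ := h1
  let lad : ℕ → I := fun j => l (j + (s + 1))
  have hmono : StrictMono lad := fun i j hij => hl (by omega)
  -- default pair
  have h2 : ∃ d : Vx I r × Vx I r, d.1 ≠ d.2 ∧ (d.1.1 < lad 0 ∧ d.2.1 < lad 0) ∧
      (d.1 ∉ F ∧ d.2 ∉ F) := by
    have hinj : Function.Injective (fun i : ℕ => ((l 0, Sum.inl i) : Vx I r)) := by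
      intro i j h
      simpa using h
    have h3 : (Set.range (fun i : ℕ => ((l 0, Sum.inl i) : Vx I r)) \ F).Infinite :=
      (Set.infinite_range_of_injective hinj).sdiff hF
    obtain ⟨x, hx⟩ := h3.nonempty
    obtain ⟨y, hy⟩ := (h3.sdiff (Set.finite_singleton x)).nonempty
    refine ⟨(x, y), fun h => hy.2 h.symm, ?_, hx.2, hy.1.2⟩
    obtain ⟨⟨i, rfl⟩, -⟩ := hx
    obtain ⟨⟨⟨j, rfl⟩, -⟩, -⟩ := hy
    exact ⟨hl (by omega), hl (by omega)⟩
  obtain ⟨d, hd1, hd2, hd3⟩ := h2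
  -- enumeration of all pairs
  let P : Set (Vx I r × Vx I r) := {p | p.1 ≠ p.2 ∧ p.1.1 < a ∧ p.2.1 < a ∧ p.1 ∉ F ∧ p.2 ∉ F}
  have hP : P.Countable := by
    apply Set.Countable.mono (s₂ := {v : Vx I r | v.1 < a} ×ˢ {v : Vx I r | v.1 < a})
    · intro p hp
      exact ⟨hp.2.1, hp.2.2.1⟩
    · exact (ctbl_below hct).prod (ctbl_below hct)
  have hlad0 : lad 0 < a := hla _
  have hPne : P.Nonempty := ⟨d, hd1, hd2.1.trans hlad0, hd2.2.trans hlad0, hd3⟩
  obtain ⟨e, he⟩ := hP.exists_eq_range hPne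
  have heP : ∀ m, e m ∈ P := by
    intro m
    rw [he]
    exact ⟨m, rfl⟩
  let gap : ℕ → Vx I r × Vx I r := fun j =>
    if (e (Nat.unpair j).1).1.1 < lad j ∧ (e (Nat.unpair j).1).2.1 < lad j then e (Nat.unpair j).1
    else d
  refine ⟨lad, gap, hmono, fun j => hla _, ?_, ?_, ?_, ?_, ?_, ?_⟩
  · intro b hb
    obtain ⟨j, hj⟩ := hcof b hb
    exact ⟨j, hj.trans_le (hl.monotone (by omega))⟩
  · intro x hx
    exact (hs x hx).trans_le (hl.monotone (by omega))
  · intro j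
    change (if _ then _ else _ : Vx I r × Vx I r).1 ≠ (if _ then _ else _ : Vx I r × Vx I r).2
    split_ifs
    · exact (heP _).1
    · exact hd1
  · intro j
    change (if _ then _ else _ : Vx I r × Vx I r).1.1 < lad j ∧
      (if _ then _ else _ : Vx I r × Vx I r).2.1 < lad j
    split_ifs with h
    · exact h
    · have : lad 0 ≤ lad j := hmono.monotone (Nat.zero_le _)
      exact ⟨hd2.1.trans_le this, hd2.2.trans_le this⟩
  · intro j
    change (if _ then _ else _ : Vx I r × Vx I r).1 ∉ F ∧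
      (if _ then _ else _ : Vx I r × Vx I r).2 ∉ F
    split_ifs
    · exact (heP _).2.2.2
    · exact hd3
  · intro x y hxy hx hy hxF hyF
    have h3 : ((x, y) : Vx I r × Vx I r) ∈ P := ⟨hxy, hx, hy, hxF, hyF⟩
    rw [he] at h3
    obtain ⟨m, hm⟩ := h3
    obtain ⟨j1, hj1⟩ := hcof x.1 hx
    obtain ⟨j2, hj2⟩ := hcof y.1 hy
    refine ⟨Nat.pair m (max j1 j2), ?_⟩
    have h4 : max j1 j2 ≤ Nat.pair m (max j1 j2) := Nat.right_le_pair _ _
    have h5 : l j1 ≤ lad (Nat.pair m (max j1 j2)) := hl.monotone (by omega)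
    have h6 : l j2 ≤ lad (Nat.pair m (max j1 j2)) := hl.monotone (by omega)
    change (if _ then _ else _) = _
    rw [Nat.unpair_pair]
    change (if (e m).1.1 < _ ∧ (e m).2.1 < _ then e m else d) = _
    rw [hm, if_pos ⟨hj1.trans_le h5, hj2.trans_le h6⟩]

/-- limits of cofinality `ω` -/
def Good (a : I) : Prop := ∃ l : ℕ → I, StrictMono l ∧ (∀ j, l j < a) ∧ ∀ b < a, ∃ j, b < l j

theorem exists_F (a : I) (hct : (Set.Iio a).Countable) : ∃ F : ℕ → Set (Vx I r),
    (∀ c, (F c).Finite ∧ ∀ x ∈ F c, x.1 < a) ∧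
    ∀ S : Set (Vx I r), S.Finite → (∀ x ∈ S, x.1 < a) → ∃ c, F c = S := by
  have h1 := Set.countable_ofPred_finite_subset (ctbl_below (r := r) hct)
  obtain ⟨F, hF⟩ := h1.exists_eq_range ⟨∅, Set.finite_empty, Set.empty_subset _⟩
  refine ⟨F, fun c => ?_, fun S hS hSa => ?_⟩
  · have h2 : F c ∈ Set.range F := ⟨c, rfl⟩
    rw [← hF] at h2
    exact ⟨h2.1, fun x hx => h2.2 hx⟩
  · have h2 : S ∈ {t | Set.Finite t ∧ t ⊆ {v : Vx I r | v.1 < a}} := ⟨hS, fun x hx => hSa x hx⟩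
    rw [hF] at h2
    exact h2

theorem exists_sys (hct : ∀ a : I, (Set.Iio a).Countable) (r : ℕ) :
    ∃ S : Sys I r, S.good = Good := by
  classical
  choose F hF1 hF2 using fun a : I => exists_F (r := r) a (hct a)
  have h1 : ∀ (a : I) (c : ℕ), ∃ (lad : ℕ → I) (gap : ℕ → Vx I r × Vx I r), Good a →
      (StrictMono lad ∧ (∀ j, lad j < a) ∧
      (∀ b < a, ∃ j, b < lad j) ∧ (∀ x ∈ F a c, x.1 < lad 0) ∧ (∀ j, (gap j).1 ≠ (gap j).2) ∧
      (∀ j, (gap j).1.1 < lad j ∧ (gap j).2.1 < lad j) ∧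
      (∀ j, (gap j).1 ∉ F a c ∧ (gap j).2 ∉ F a c) ∧
      (∀ x y : Vx I r, x ≠ y → x.1 < a → y.1 < a → x ∉ F a c → y ∉ F a c →
        ∃ j, gap j = (x, y))) := by
    intro a c
    by_cases ha : Good a
    · obtain ⟨l, hl1, hl2, hl3⟩ := ha
      obtain ⟨lad, gap, h⟩ := exists_gadget a (hct a) l hl1 hl2 hl3 (F a c) (hF1 a c).1 (hF1 a c).2
      exact ⟨lad, gap, fun _ => h⟩
    · exact ⟨fun _ => a, fun _ => ((a, Sum.inl 0), (a, Sum.inl 0)), fun h => absurd h ha⟩
  choose lad gap h using h1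
  exact ⟨{ good := Good
           F := F
           lad := lad
           gap := gap
           lad_mono := fun a ha c => (h a c ha).1
           lad_lt := fun a ha c => (h a c ha).2.1
           lad_cof := fun a ha c => (h a c ha).2.2.1
           F_fin := fun a _ c => (hF1 a c).1
           F_sub := fun a ha c => (h a c ha).2.2.2.1
           F_surj := fun a _ => hF2 a
           gap_ne := fun a ha c => (h a c ha).2.2.2.2.1
           gap_lt := fun a ha c => (h a c ha).2.2.2.2.2.1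
           gap_notMem := fun a ha c => (h a c ha).2.2.2.2.2.2.1
           gap_surj := fun a ha c => (h a c ha).2.2.2.2.2.2.2 }, rfl⟩

theorem club_good [WellFoundedLT I] (hct : ∀ a : I, (Set.Iio a).Countable)
    (hbd : ∀ s : Set I, s.Countable → ∃ b, ∀ x ∈ s, x < b) (h : I → I) (b : I) :
    ∃ a, Good a ∧ b < a ∧ ∀ b' < a, h b' < a := by
  have h1 : ∀ x : I, ∃ y, x < y ∧ ∀ x' ≤ x, h x' < y := by
    intro x
    have h2 : (insert x (h '' Set.Iic x)).Countable := by
      apply Set.Countable.insert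
      apply Set.Countable.image
      have h3 : Set.Iic x = insert x (Set.Iio x) := by
        ext y
        simp only [Set.mem_Iic, Set.mem_insert_iff, Set.mem_Iio]
        exact le_iff_eq_or_lt
      rw [h3]
      exact (hct x).insert x
    obtain ⟨y, hy⟩ := hbd _ h2
    exact ⟨y, hy x (Set.mem_insert _ _), fun x' hx' => hy _ (Set.mem_insert_of_mem _ ⟨x', hx', rfl⟩)⟩
  choose g hg1 hg2 using h1
  let s : ℕ → I := fun n => g^[n] (g b)
  have hs : ∀ n, s (n + 1) = g (s n) := by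
    intro n
    exact Function.iterate_succ_apply' g n (g b)
  have hmono : StrictMono s := by
    apply strictMono_nat_of_lt_succ
    intro n
    rw [hs]
    exact hg1 _
  obtain ⟨u, hu⟩ := hbd _ (Set.countable_range s)
  obtain ⟨a, ha, hmin⟩ := WellFounded.has_min (wellFounded_lt (α := I)) {x | ∀ n, s n < x}
    ⟨u, fun n => hu _ ⟨n, rfl⟩⟩
  have hcof : ∀ b' < a, ∃ j, b' < s j := by
    intro b' hb'
    by_contra hcon
    push Not at hcon
    have h2 : b' ∈ {x | ∀ n, s n < x} := fun n => (hmono (Nat.lt_succ_self n)).trans_le (hcon _)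
    exact hmin b' h2 hb'
  refine ⟨a, ⟨s, hmono, ha, hcof⟩, (hg1 b).trans (ha 0), fun b' hb' => ?_⟩
  obtain ⟨j, hj⟩ := hcof b' hb'
  have h2 := hg2 (s j) b' hj.le
  rw [← hs] at h2
  exact h2.trans (ha _)

end Pool.Agent.W5h18.ColInd
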