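import Mathlib
import Pool.Agent.H212R4.IndCol

set_option autoImplicit false

open Cardinal Order Set

/-!
# Graphs whose induced subgraphs omit a colouring number: the layers and the graph

The graph is built from layers. A layer has the vertex set `L r = Fin 7 ⊕ Fin r`; `lay` is the
adjacency inside of a layer, `link` the adjacency between a layer and the next one, `att` marks the
two vertices of a layer which are joined to two further vertices outside.
-/

namespace Pool.Agent.W5h18.ColInd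

open Pool.Agent.Results.MP_279ba3_co.ColoringNumberStep

theorem free_of_rank {V : Type} {G : SimpleGraph V} {A C : Set V} {t : ℕ} {T : Type}
    [LinearOrder T] [WellFoundedLT T] (f : V → T)
    (hne : ∀ v ∈ C, ∀ w ∈ C, G.Adj v w → f v ≠ f w)
    (hle : ∀ v ∈ C, {w | G.Adj v w ∧ (w ∈ A ∨ (w ∈ C ∧ f w < f v))}.encard ≤ t) :
    Free G A C t := by
  apply Free.blocks (fun v => Ordinal.typein (α := T) (· < ·) (f v))
  intro i
  obtain ⟨ρ, hρ⟩ := exists_inj V
  refine ⟨ρ, hρ, ?_⟩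
  rintro v ⟨hv, hvi⟩
  refine (Set.encard_le_encard ?_).trans (hle v hv)
  rintro w ⟨hw, hw2⟩
  refine ⟨hw, ?_⟩
  rcases hw2 with (hw2 | hw2) | hw2
  · exact Or.inl hw2
  · right
    refine ⟨hw2.1, ?_⟩
    have h1 := hw2.2
    rw [← hvi] at h1
    exact (Ordinal.typein_lt_typein (α := T) (· < ·)).1 h1
  · exfalso
    have h1 : f w = f v := by
      apply Ordinal.typein_injective (α := T) (· < ·)
      exact hw2.1.2.trans hvi.symm
    exact hne v hv w hw2.1.1 hw h1.symm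

/-- the vertices of a layer -/
abbrev L (r : ℕ) : Type := Fin 7 ⊕ Fin r

/-- neighbours inside of the fixed part of a layer -/
def N0 : Fin 7 → Finset (Fin 7) :=
  ![{1, 4, 6}, {0, 5, 6}, {3, 4, 5, 6}, {2, 4, 5}, {0, 2, 3, 5, 6}, {1, 2, 3, 4, 6},
    {0, 1, 2, 4, 5}]

/-- neighbours in the next layer -/
def N1 : Fin 7 → Finset (Fin 7) := ![∅, {3}, ∅, ∅, {2, 3}, ∅, ∅]

/-- neighbours in the previous layer -/
def N1' : Fin 7 → Finset (Fin 7) := ![∅, ∅, {4}, {1, 4}, ∅, ∅, ∅]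

/-- the order used in cut layers -/
def oC : Fin 7 → ℕ := ![6, 5, 2, 0, 1, 3, 4]

/-- the order used in the other layers -/
def oP : Fin 7 → ℕ := ![1, 0, 5, 6, 2, 4, 3]

theorem N0_symm : ∀ a b : Fin 7, a ∈ N0 b → b ∈ N0 a := by decide

theorem N0_irrefl : ∀ a : Fin 7, a ∉ N0 a := by decide

theorem N1_iff : ∀ a b : Fin 7, a ∈ N1 b ↔ b ∈ N1' a := by decide

theorem oC_inj : ∀ a b : Fin 7, oC a = oC b → a = b := by decide

theorem oP_inj : ∀ a b : Fin 7, oP a = oP b → a = b := by decide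

/-- adjacency inside of a layer -/
def lay {r : ℕ} : L r → L r → Prop
  | Sum.inl a, Sum.inl b => b ∈ N0 a
  | Sum.inl _, Sum.inr _ => True
  | Sum.inr _, Sum.inl _ => True
  | Sum.inr a, Sum.inr b => a ≠ b

/-- adjacency between a vertex of a layer and a vertex of the next layer -/
def link {r : ℕ} : L r → L r → Prop
  | Sum.inl a, Sum.inl b => b ∈ N1 a
  | _, _ => False

/-- vertices with neighbours outside -/
def att {r : ℕ} : L r → Prop
  | Sum.inl a => a = 0 ∨ a = 1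
  | Sum.inr _ => False

theorem lay_symm {r : ℕ} : ∀ {a b : L r}, lay a b → lay b a
  | Sum.inl _, Sum.inl _, h => N0_symm _ _ h
  | Sum.inl _, Sum.inr _, _ => trivial
  | Sum.inr _, Sum.inl _, _ => trivial
  | Sum.inr _, Sum.inr _, h => fun h2 => h h2.symm

theorem lay_irrefl {r : ℕ} : ∀ (a : L r), ¬ lay a a
  | Sum.inl a, h => N0_irrefl a h
  | Sum.inr _, h => h rfl

/-- The order inside of a layer; `m` says that the layer is a cut layer. -/
def ord {r : ℕ} (m : Bool) : L r → ℕ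
  | Sum.inl a => r + if m then oC a else oP a
  | Sum.inr a => (a : ℕ)

theorem ord_inj {r : ℕ} (m : Bool) {a b : L r} (h : ord m a = ord m b) : a = b := by
  rcases a with a | a <;> rcases b with b | b
  · simp only [ord] at h
    congr 1
    cases m
    · exact oP_inj _ _ (by simpa using h)
    · exact oC_inj _ _ (by simpa using h)
  · simp only [ord] at h
    have := b.2
    omega
  · simp only [ord] at h
    have := a.2
    omega
  · simp only [ord] at h
    exact congrArg _ (Fin.ext h)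

theorem ord_lt {r : ℕ} (m : Bool) (a : L r) : ord m a < r + 7 := by
  rcases a with a | a
  · simp only [ord]
    have h1 : ∀ a : Fin 7, oC a < 7 := by decide
    have h2 : ∀ a : Fin 7, oP a < 7 := by decide
    have := h1 a
    have := h2 a
    split_ifs <;> omega
  · simp only [ord]
    have := a.2
    omega

/-- vertices: `(ξ, inl i)` is a base vertex, `(a, inr (c, n, v))` is the vertex `v` in the layer `n`
of the gadget `(a, c)` -/
abbrev Vx (I : Type) (r : ℕ) : Type := I × (ℕ ⊕ (ℕ × ℕ × L r))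

/-- The data for the gadgets. `good a`: there are gadgets `(a, c)`, `c : ℕ`. -/
structure Sys (I : Type) [LinearOrder I] (r : ℕ) where
  good : I → Prop
  F : I → ℕ → Set (Vx I r)
  lad : I → ℕ → ℕ → I
  gap : I → ℕ → ℕ → Vx I r × Vx I r
  lad_mono : ∀ a, good a → ∀ c, StrictMono (lad a c)
  lad_lt : ∀ a, good a → ∀ c j, lad a c j < a
  lad_cof : ∀ a, good a → ∀ c, ∀ b < a, ∃ j, b < lad a c j
  F_fin : ∀ a, good a → ∀ c, (F a c).Finite
  F_sub : ∀ a, good a → ∀ c, ∀ x ∈ F a c, x.1 < lad a c 0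
  F_surj : ∀ a, good a → ∀ S : Set (Vx I r), S.Finite → (∀ x ∈ S, x.1 < a) → ∃ c, F a c = S
  gap_ne : ∀ a, good a → ∀ c j, (gap a c j).1 ≠ (gap a c j).2
  gap_lt : ∀ a, good a → ∀ c j, (gap a c j).1.1 < lad a c j ∧ (gap a c j).2.1 < lad a c j
  gap_notMem : ∀ a, good a → ∀ c j, (gap a c j).1 ∉ F a c ∧ (gap a c j).2 ∉ F a c
  gap_surj : ∀ a, good a → ∀ c, ∀ x y : Vx I r, x ≠ y → x.1 < a → y.1 < a → x ∉ F a c →
    y ∉ F a c → ∃ j, gap a c j = (x, y)

variable {I : Type} [LinearOrder I] {r : ℕ}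

/-- the two outer neighbours of the layer `n` of the gadget `(a, c)` -/
def Sys.Q (S : Sys I r) (a : I) (c n : ℕ) : Vx I r × Vx I r :=
  if n % 2 = 0 then ((S.lad a c (n / 2), Sum.inl (2 * c)), (S.lad a c (n / 2), Sum.inl (2 * c + 1)))
  else S.gap a c (n / 2)

/-- `y` is a neighbour of the gadget vertex `x`, in the same layer, in the previous layer or outside
of the gadget -/
def Sys.Down (S : Sys I r) (x y : Vx I r) : Prop :=
  ∃ (a : I) (c n : ℕ) (v : L r), S.good a ∧ x = (a, Sum.inr (c, n, v)) ∧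
    ((∃ v', y = (a, Sum.inr (c, n, v')) ∧ lay v v') ∨
     (∃ n' v', n = n' + 1 ∧ y = (a, Sum.inr (c, n', v')) ∧ link v' v) ∨
     (att v ∧ (y = (S.Q a c n).1 ∨ y = (S.Q a c n).2)))

theorem Sys.Q_lt (S : Sys I r) {a : I} (ha : S.good a) (c n : ℕ) :
    (S.Q a c n).1.1 < a ∧ (S.Q a c n).2.1 < a := by
  unfold Sys.Q
  split_ifs
  · exact ⟨S.lad_lt a ha c _, S.lad_lt a ha c _⟩
  · exact ⟨(S.gap_lt a ha c _).1.trans (S.lad_lt a ha c _),
      (S.gap_lt a ha c _).2.trans (S.lad_lt a ha c _)⟩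

theorem Sys.Q_ne (S : Sys I r) {a : I} (ha : S.good a) (c n : ℕ) :
    (S.Q a c n).1 ≠ (S.Q a c n).2 := by
  unfold Sys.Q
  split_ifs
  · simp
  · exact S.gap_ne a ha c _

/-- outer neighbours are outside of the excluded set -/
theorem Sys.Q_notMem (S : Sys I r) {a : I} (ha : S.good a) (c n : ℕ) :
    (S.Q a c n).1 ∉ S.F a c ∧ (S.Q a c n).2 ∉ S.F a c := by
  unfold Sys.Q
  split_ifs
  · have h : ∀ i, ((S.lad a c (n / 2), Sum.inl i) : Vx I r) ∉ S.F a c := by
      intro i hi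
      have h1 := S.F_sub a ha c _ hi
      have h2 : S.lad a c 0 ≤ S.lad a c (n / 2) := (S.lad_mono a ha c).monotone (Nat.zero_le _)
      exact absurd h1 (not_lt.2 h2)
    exact ⟨h _, h _⟩
  · exact S.gap_notMem a ha c _

theorem Sys.Down.irrefl (S : Sys I r) (x : Vx I r) : ¬ S.Down x x := by
  rintro ⟨a, c, n, v, ha, hx, h | h | h⟩
  · obtain ⟨v', h1, h2⟩ := h
    rw [hx] at h1
    simp only [Prod.mk.injEq, Sum.inr.injEq, true_and] at h1
    rw [← h1] at h2
    exact lay_irrefl _ h2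
  · obtain ⟨n', v', h0, h1, -⟩ := h
    rw [hx] at h1
    simp only [Prod.mk.injEq, Sum.inr.injEq, true_and] at h1
    omega
  · have h1 := S.Q_lt ha c n
    rcases h.2 with h2 | h2
    · rw [← h2, hx] at h1
      exact absurd h1.1 (lt_irrefl _)
    · rw [← h2, hx] at h1
      exact absurd h1.2 (lt_irrefl _)

/-- the graph -/
def Sys.G (S : Sys I r) : SimpleGraph (Vx I r) where
  Adj x y := S.Down x y ∨ S.Down y x
  symm := ⟨fun _ _ h => h.symm⟩
  loopless := ⟨fun x h => h.elim (Sys.Down.irrefl S x) (Sys.Down.irrefl S x)⟩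

/-- the neighbours of a gadget vertex -/
theorem Sys.adj_inr (S : Sys I r) {a : I} {c n : ℕ} {v : L r} {w : Vx I r}
    (h : S.G.Adj (a, Sum.inr (c, n, v)) w) :
    (S.good a ∧ ∃ v', w = (a, Sum.inr (c, n, v')) ∧ lay v v') ∨
    (S.good a ∧ ∃ n' v', n = n' + 1 ∧ w = (a, Sum.inr (c, n', v')) ∧ link v' v) ∨
    (S.good a ∧ ∃ v', w = (a, Sum.inr (c, n + 1, v')) ∧ link v v') ∨
    (S.good a ∧ att v ∧ (w = (S.Q a c n).1 ∨ w = (S.Q a c n).2)) ∨
    (∃ a' c' j v', S.good a' ∧ w = (a', Sum.inr (c', 2 * j + 1, v')) ∧ a < S.lad a' c' j) := by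
  rcases h with ⟨a1, c1, n1, v1, ha, hx, h⟩ | ⟨a1, c1, n1, v1, ha, hx, h⟩
  · simp only [Prod.mk.injEq, Sum.inr.injEq] at hx
    obtain ⟨rfl, rfl, rfl, rfl⟩ := hx
    rcases h with h | h | h
    · exact Or.inl ⟨ha, h⟩
    · exact Or.inr (Or.inl ⟨ha, h⟩)
    · exact Or.inr (Or.inr (Or.inr (Or.inl ⟨ha, h⟩)))
  · rcases h with ⟨v', h1, h2⟩ | ⟨n', v', h0, h1, h2⟩ | ⟨h1, h2⟩
    · simp only [Prod.mk.injEq, Sum.inr.injEq] at h1
      obtain ⟨rfl, rfl, rfl, rfl⟩ := h1
      exact Or.inl ⟨ha, v1, hx, lay_symm h2⟩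
    · simp only [Prod.mk.injEq, Sum.inr.injEq] at h1
      obtain ⟨rfl, rfl, rfl, rfl⟩ := h1
      exact Or.inr (Or.inr (Or.inl ⟨ha, v1, by rw [hx, h0], h2⟩))
    · right; right; right; right
      have hodd : n1 % 2 ≠ 0 := by
        intro h0
        unfold Sys.Q at h2
        rw [if_pos h0] at h2
        rcases h2 with h2 | h2 <;> simp at h2
      have h3 : n1 = 2 * (n1 / 2) + 1 := by omega
      refine ⟨a1, c1, n1 / 2, v1, ha, by rw [← h3]; exact hx, ?_⟩
      unfold Sys.Q at h2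
      rw [if_neg hodd] at h2
      have h4 := S.gap_lt a1 ha c1 (n1 / 2)
      rcases h2 with h2 | h2
      · rw [← h2] at h4
        exact h4.1
      · rw [← h2] at h4
        exact h4.2

/-- the neighbours of a base vertex -/
theorem Sys.adj_inl (S : Sys I r) {a : I} {i : ℕ} {w : Vx I r}
    (h : S.G.Adj (a, Sum.inl i) w) :
    ∃ a' c' n' v', S.good a' ∧ w = (a', Sum.inr (c', n', v')) ∧ att v' ∧
      (((a, Sum.inl i) : Vx I r) = (S.Q a' c' n').1 ∨
        ((a, Sum.inl i) : Vx I r) = (S.Q a' c' n').2) := by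
  rcases h with ⟨a1, c1, n1, v1, ha, hx, h⟩ | ⟨a1, c1, n1, v1, ha, hx, h⟩
  · simp at hx
  · rcases h with ⟨v', h1, h2⟩ | ⟨n', v', h0, h1, h2⟩ | ⟨h1, h2⟩
    · simp at h1
    · simp at h1
    · exact ⟨a1, c1, n1, v1, ha, hx, h1, h2⟩

end Pool.Agent.W5h18.ColInd
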