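import Pool.Agent.W5h18.ColInd.Ctbl

set_option autoImplicit false
set_option linter.unusedSectionVars false

open Cardinal Order Set

namespace Pool.Agent.W5h18.ColInd

open Pool.Agent.Results.MP_279ba3_co.ColoringNumberStep

variable {I : Type} [LinearOrder I] {r : ℕ}

/-- the order inside of the blocks -/
def fB (lr : ℕ → ℕ → ℕ) (M : ℕ → ℕ → Bool) (v : Vx I r) : ℕ :=
  match v.2 with
  | Sum.inl _ => 0
  | Sum.inr (c, n, u) => pos r (lr c n) (M c n) u

theorem fB_inr (lr : ℕ → ℕ → ℕ) (M : ℕ → ℕ → Bool) (a : I) (c n : ℕ) (u : L r) :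
    fB lr M (a, Sum.inr (c, n, u)) = pos r (lr c n) (M c n) u := rfl

theorem fB_ne_of_down (S : Sys I r) (lr : ℕ → ℕ → ℕ) (M : ℕ → ℕ → Bool)
    (hlr : ∀ c n, (M c (n + 1) = true → lr c n < lr c (n + 1)) ∧
      (M c (n + 1) = false → lr c (n + 1) < lr c n))
    {v w : Vx I r} (h : S.Down v w) (hvw : v.1 = w.1) : fB lr M w ≠ fB lr M v := by
  obtain ⟨a, c, n, u, ha, rfl, h⟩ := h
  rcases h with ⟨v', rfl, h⟩ | ⟨n', v', rfl, rfl, h⟩ | ⟨h1, h2⟩
  · rw [fB_inr, fB_inr]
    exact (pos_same_ne h).symm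
  · rw [fB_inr, fB_inr]
    rcases hM : M c (n' + 1) with _ | _
    · exact (pos_lt_of_lt ((hlr c n').2 hM)).ne'
    · exact (pos_lt_of_lt ((hlr c n').1 hM)).ne
  · exfalso
    have h3 := S.Q_lt ha c n
    rcases h2 with rfl | rfl
    · rw [← hvw] at h3
      exact absurd h3.1 (lt_irrefl _)
    · rw [← hvw] at h3
      exact absurd h3.2 (lt_irrefl _)

theorem block_case (S : Sys I r) (X : Set (Vx I r)) (α : I) (hinf : (Xᶜ ∩ {v | v.1 < α}).Infinite) :
    Free S.G {v | v ∈ X ∧ v.1 < α} {v | v ∈ X ∧ v.1 = α} (r + 3) := by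
  classical
  let M : ℕ → ℕ → Bool := fun c n => decide ((S.Q α c n).1 ∉ X ∧ (S.Q α c n).2 ∉ X)
  -- there are no edges if `α` is not good
  have hup : ∀ (a' : I) (c' j : ℕ) (v' : L r) (y : ℕ ⊕ (ℕ × ℕ × L r)) (f : Vx I r → ℕ), S.good a' →
      α < S.lad a' c' j → ¬ (((a', Sum.inr (c', 2 * j + 1, v')) : Vx I r) ∈ {v | v ∈ X ∧ v.1 < α} ∨
        (((a', Sum.inr (c', 2 * j + 1, v')) : Vx I r) ∈ {v : Vx I r | v ∈ X ∧ v.1 = α} ∧
          f (a', Sum.inr (c', 2 * j + 1, v')) < f (α, y))) := by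
    rintro a' c' j v' y f ha' h1 (h | ⟨h, -⟩)
    · have h2 : a' < α := h.2
      exact absurd (h2.trans (h1.trans (S.lad_lt a' ha' c' j))) (lt_irrefl _)
    · have h2 : a' = α := h.2
      rw [h2] at h1 ha'
      exact absurd (h1.trans (S.lad_lt α ha' c' j)) (lt_irrefl _)
  have hbase : ∀ (i : ℕ) (w : Vx I r) (f : Vx I r → ℕ), S.G.Adj (α, Sum.inl i) w →
      ¬ (w ∈ {v | v ∈ X ∧ v.1 < α} ∨ (w ∈ {v : Vx I r | v ∈ X ∧ v.1 = α} ∧
        f w < f (α, Sum.inl i))) := by
    rintro i w f h1 h2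
    obtain ⟨a', c', n', v', ha', rfl, -, h3⟩ := S.adj_inl h1
    have h4 := S.Q_lt ha' c' n'
    have h5 : α < a' := by
      rcases h3 with h3 | h3
      · rw [← h3] at h4; exact h4.1
      · rw [← h3] at h4; exact h4.2
    rcases h2 with ⟨-, h2⟩ | ⟨⟨-, h2⟩, -⟩
    · exact absurd (h5.trans h2) (lt_irrefl _)
    · exact absurd h2 h5.ne'
  by_cases hα : S.good α
  · have hex : ∀ c : ℕ, ∃ lr : ℕ → ℕ, ∀ n, (M c (n + 1) = true → lr n < lr (n + 1)) ∧
        (M c (n + 1) = false → lr (n + 1) < lr n) := by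
      intro c
      apply exists_lr
      intro N
      have h1 : ((Xᶜ ∩ {v : Vx I r | v.1 < α}) \ S.F α c).Infinite := hinf.sdiff (S.F_fin α hα c)
      obtain ⟨x0, hx0⟩ := h1.nonempty
      have h2 : (((Xᶜ ∩ {v : Vx I r | v.1 < α}) \ S.F α c) \
          ({x0} ∪ (fun j => (S.gap α c j).2) '' (Set.Iic N))).Infinite := by
        apply h1.sdiff
        exact (Set.finite_singleton _).union ((Set.finite_Iic N).image _)
      obtain ⟨y0, hy0, hy1⟩ := h2.nonempty
      obtain ⟨j, hj⟩ := S.gap_surj α hα c x0 y0 (fun h => hy1 (Or.inl h.symm)) hx0.1.2 hy0.1.2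
        hx0.2 hy0.2
      have hjN : N < j := by
        by_contra hcon
        exact hy1 (Or.inr ⟨j, not_lt.1 hcon, by simp only [hj]⟩)
      refine ⟨2 * j + 1, by omega, ?_⟩
      have hQ : S.Q α c (2 * j + 1) = (x0, y0) := by
        unfold Sys.Q
        rw [if_neg (by omega), (by omega : (2 * j + 1) / 2 = j), hj]
      change decide ((S.Q α c (2 * j + 1)).1 ∉ X ∧ (S.Q α c (2 * j + 1)).2 ∉ X) = true
      rw [decide_eq_true_eq, hQ]
      exact ⟨hx0.1.1, hy0.1.1⟩
    choose lr hlr using hex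
    apply free_of_rank (T := ℕ) (fB lr M)
    · rintro v hv w hw (h | h)
      · exact (fB_ne_of_down S lr M hlr h (hv.2.trans hw.2.symm)).symm
      · exact fB_ne_of_down S lr M hlr h (hw.2.trans hv.2.symm)
    · rintro ⟨a, y⟩ hv
      have hv2 : a = α := hv.2
      subst hv2
      rcases y with i | ⟨c, n, v⟩
      · refine le_trans (le_of_eq ?_) (bot_le (a := ((r + 3 : ℕ) : ℕ∞)))
        rw [bot_eq_zero, Set.encard_eq_zero, Set.eq_empty_iff_forall_notMem]
        rintro w ⟨h1, h2⟩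
        exact hbase i w _ h1 h2
      · apply count_le S (M c) (fun w => w ∈ {v | v ∈ X ∧ v.1 < a} ∨
            (w ∈ {v : Vx I r | v ∈ X ∧ v.1 = a} ∧ fB lr M w < fB lr M (a, Sum.inr (c, n, v))))
        · rintro v' hv' (h | ⟨-, h⟩)
          · exact absurd h.2 (lt_irrefl _)
          · rw [fB_inr, fB_inr] at h
            exact pos_same_lt.1 h
        · rintro n' v' rfl (h | ⟨-, h⟩)
          · exact absurd h.2 (lt_irrefl _)
          · by_contra hM
            have hM : M c (n' + 1) = false := by simpa using hM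
            rw [fB_inr, fB_inr] at h
            exact absurd h (not_lt.2 (pos_lt_of_lt ((hlr c n').2 hM)).le)
        · intro h
          by_contra hM
          have hM : M c n = true := by simpa using hM
          have hM' : (S.Q a c n).1 ∉ X ∧ (S.Q a c n).2 ∉ X := of_decide_eq_true hM
          rcases h with (h | ⟨h, -⟩) | (h | ⟨h, -⟩)
          · exact hM'.1 h.1
          · exact hM'.1 h.1
          · exact hM'.2 h.1
          · exact hM'.2 h.1
        · intro a' c' j v' ha' h1 h2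
          exact hup a' c' j v' (Sum.inr (c, n, v)) (fB lr M) ha' h1 h2
  · apply free_of_rank (T := ℕ) (fun _ => 0)
    · rintro v hv w hw (h | h)
      · obtain ⟨a, c, n, u, ha, rfl, -⟩ := h
        have h1 : a = α := hv.2
        rw [h1] at ha
        exact absurd ha hα
      · obtain ⟨a, c, n, u, ha, rfl, -⟩ := h
        have h1 : a = α := hw.2
        rw [h1] at ha
        exact absurd ha hα
    · rintro ⟨a, y⟩ hv
      have hv2 : a = α := hv.2
      subst hv2
      refine le_trans (le_of_eq ?_) (bot_le (a := ((r + 3 : ℕ) : ℕ∞)))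
      rw [bot_eq_zero, Set.encard_eq_zero, Set.eq_empty_iff_forall_notMem]
      rintro w ⟨h1, h2⟩
      rcases y with i | ⟨c, n, v⟩
      · exact hbase i w (fun _ => 0) h1 h2
      · rcases S.adj_inr h1 with h | h | h | h | ⟨a', c', j, v', ha', rfl, h⟩
        · exact hα h.1
        · exact hα h.1
        · exact hα h.1
        · exact hα h.1
        · exact hup a' c' j v' (Sum.inr (c, n, v)) (fun _ => 0) ha' h h2

theorem coinf_case [WellFoundedLT I] (S : Sys I r) (hI : ∀ a : I, (Set.Iio a).Countable)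
    (hbd : ∀ s : Set I, s.Countable → ∃ b, ∀ x ∈ s, x < b)
    (X : Set (Vx I r)) (hX : Xᶜ.Infinite) : Free S.G ∅ X (r + 3) := by
  classical
  obtain ⟨Y, hYX, hYc, hYi⟩ := hX.exists_subset_countable_infinite
  obtain ⟨a0, ha0⟩ := hbd (Prod.fst '' Y) (hYc.image _)
  have hinf : ∀ α, a0 ≤ α → (Xᶜ ∩ {v : Vx I r | v.1 < α}).Infinite := by
    intro α hα
    apply hYi.mono
    intro y hy
    exact ⟨hYX hy, (ha0 _ ⟨y, hy, rfl⟩).trans_le hα⟩
  apply Free.blocks (fun v => if v.1 < a0 then 0 else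
    Order.succ (Ordinal.typein (α := I) (· < ·) v.1))
  intro i
  by_cases hi : i = 0
  · subst hi
    refine (countable_case S a0 (hI a0)).mono (fun v _ w h _ => h) ?_ ?_ le_rfl
    · rintro w (hw | ⟨-, hw⟩)
      · exact hw
      · exact absurd hw (not_lt.2 (zero_le))
    · rintro w ⟨-, hw⟩
      by_contra hcon
      have hcon : ¬ w.1 < a0 := hcon
      rw [if_neg hcon] at hw
      exact absurd hw (Order.bot_lt_succ _).ne'
  · by_cases hex : ∃ α : I, a0 ≤ α ∧ i = Order.succ (Ordinal.typein (α := I) (· < ·) α)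
    · obtain ⟨α, hα, rfl⟩ := hex
      refine (block_case S X α (hinf α hα)).mono (fun v _ w h _ => h) ?_ ?_ le_rfl
      · rintro w (hw | ⟨hwX, hw⟩)
        · exact absurd hw (Set.notMem_empty _)
        · refine ⟨hwX, ?_⟩
          split_ifs at hw with h1
          · exact h1.trans_le hα
          · have h2 := Order.succ_lt_succ_iff.1 hw
            exact (Ordinal.typein_lt_typein (α := I) (· < ·)).1 h2
      · rintro w ⟨hwX, hw⟩
        refine ⟨hwX, ?_⟩
        split_ifs at hw with h1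
        · exact absurd hw.symm (Order.bot_lt_succ _).ne'
        · have h2 := Order.succ_injective hw
          exact Ordinal.typein_injective (α := I) (· < ·) h2
    · obtain ⟨ρ, hρ⟩ := exists_inj (Vx I r)
      refine ⟨ρ, hρ, ?_⟩
      rintro v ⟨hvX, hv⟩
      exfalso
      split_ifs at hv with h1
      · exact hi hv.symm
      · exact hex ⟨v.1, not_lt.1 h1, hv.symm⟩

end Pool.Agent.W5h18.ColInd
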