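import Pool.Agent.W5h18.ColInd.Basic

set_option autoImplicit false

open Cardinal Order Set

namespace Pool.Agent.W5h18.ColInd

open Pool.Agent.Results.MP_279ba3_co.ColoringNumberStep

variable {I : Type} [LinearOrder I] {r : ℕ}

theorem encard_range_le {α β : Type} [Fintype α] (f : α → β) :
    (Set.range f).encard ≤ (Fintype.card α : ℕ) := by
  rw [← Set.image_univ]
  refine (Set.encard_image_le _ _).trans ?_
  rw [Set.encard_univ, ENat.card_eq_coe_fintype_card]

theorem encard_image_coe_le {α β : Type} (f : α → β) (s : Finset α) :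
    (f '' (s : Set α)).encard ≤ (s.card : ℕ) := by
  refine (Set.encard_image_le _ _).trans ?_
  rw [Set.encard_coe_eq_coe_finsetCard]

/-- the numbers of neighbours which are counted -/
def cnt (m bp bn ba : Bool) (u : Fin 7) : ℕ :=
  ((N0 u).filter (fun u' => (if m then oC u' else oP u') < (if m then oC u else oP u))).card +
    (if bp then (N1' u).card else 0) + (if bn then (N1 u).card else 0) +
    (if ba && (u = 0 ∨ u = 1) then 2 else 0)

theorem count_gen (S : Sys I r) {a : I} {c n : ℕ} {v : L r} (m bp bn ba : Bool)
    (P : Vx I r → Prop) (t : ℕ)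
    (hsame : ∀ v', lay v v' → P (a, Sum.inr (c, n, v')) → ord m v' < ord m v)
    (hprev : ∀ n' v', n = n' + 1 → P (a, Sum.inr (c, n', v')) → bp = true)
    (hnext : ∀ v', P (a, Sum.inr (c, n + 1, v')) → bn = true)
    (hatt : P (S.Q a c n).1 ∨ P (S.Q a c n).2 → ba = true)
    (hup : ∀ a' c' j v', S.good a' → a < S.lad a' c' j → ¬ P (a', Sum.inr (c', 2 * j + 1, v')))
    (ht : ∀ u : Fin 7, cnt m bp bn ba u ≤ t) :
    {w | S.G.Adj (a, Sum.inr (c, n, v)) w ∧ P w}.encard ≤ ((r + t : ℕ) : ℕ∞) := by
  rcases v with u | k
  · -- fixed part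
    let R : Set (Vx I r) := Set.range (fun k : Fin r => ((a, Sum.inr (c, n, Sum.inr k)) : Vx I r))
    let B1 : Set (Vx I r) := (fun u' : Fin 7 => ((a, Sum.inr (c, n, Sum.inl u')) : Vx I r)) ''
      (((N0 u).filter (fun u' => (if m then oC u' else oP u') < (if m then oC u else oP u)) :
        Finset (Fin 7)) : Set (Fin 7))
    let B2 : Set (Vx I r) := (fun u' : Fin 7 => ((a, Sum.inr (c, n - 1, Sum.inl u')) : Vx I r)) ''
      ((if bp then N1' u else ∅ : Finset (Fin 7)) : Set (Fin 7))
    let B3 : Set (Vx I r) := (fun u' : Fin 7 => ((a, Sum.inr (c, n + 1, Sum.inl u')) : Vx I r)) ''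
      ((if bn then N1 u else ∅ : Finset (Fin 7)) : Set (Fin 7))
    let B4 : Set (Vx I r) := (fun b : Bool => if b then (S.Q a c n).1 else (S.Q a c n).2) ''
      ((if ba && (u = 0 ∨ u = 1) then Finset.univ else ∅ : Finset Bool) : Set Bool)
    have hsub : {w | S.G.Adj (a, Sum.inr (c, n, Sum.inl u)) w ∧ P w} ⊆
        R ∪ (B1 ∪ (B2 ∪ (B3 ∪ B4))) := by
      rintro w ⟨hw, hP⟩
      rcases S.adj_inr hw with ⟨-, v', rfl, h⟩ | ⟨-, n', v', h0, rfl, h⟩ | ⟨-, v', rfl, h⟩ |
        ⟨-, h1, h2⟩ | ⟨a', c', j, v', h1, rfl, h2⟩
      · rcases v' with u' | k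
        · right; left
          refine ⟨u', ?_, rfl⟩
          have h3 := hsame _ h hP
          simp only [ord] at h3
          simp only [Finset.coe_filter, Set.mem_ofPred_eq]
          exact ⟨h, by omega⟩
        · left
          exact ⟨k, rfl⟩
      · rcases v' with u' | k
        · right; right; left
          have h3 := hprev _ _ h0 hP
          refine ⟨u', ?_, ?_⟩
          · rw [h3]
            simp only [if_true]
            exact (N1_iff _ _).1 h
          · have : n - 1 = n' := by omega
            change ((a, Sum.inr (c, n - 1, Sum.inl u')) : Vx I r) = _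
            rw [this]
        · exact absurd h id
      · rcases v' with u' | k
        · right; right; right; left
          have h3 := hnext _ hP
          refine ⟨u', ?_, rfl⟩
          rw [h3]
          simp only [if_true]
          exact h
        · exact absurd h id
      · right; right; right; right
        have h3 : ba = true := by
          apply hatt
          rcases h2 with rfl | rfl
          · exact Or.inl hP
          · exact Or.inr hP
        have h4 : (ba && decide (u = 0 ∨ u = 1)) = true := by
          rw [h3, Bool.true_and, decide_eq_true_eq]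
          exact h1
        rcases h2 with h2 | h2
        · refine ⟨true, ?_, ?_⟩
          · rw [if_pos h4]; simp
          · simp only [if_true]; exact h2.symm
        · refine ⟨false, ?_, ?_⟩
          · rw [if_pos h4]; simp
          · simp only [Bool.false_eq_true, if_false]; exact h2.symm
      · exact absurd hP (hup _ _ _ _ h1 h2)
    have e0 : R.encard ≤ ((r : ℕ) : ℕ∞) := by
      refine (encard_range_le _).trans ?_
      rw [Fintype.card_fin]
    have e1 := encard_image_coe_le (fun u' : Fin 7 => ((a, Sum.inr (c, n, Sum.inl u')) : Vx I r))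
      ((N0 u).filter (fun u' => (if m then oC u' else oP u') < (if m then oC u else oP u)))
    have e2 := encard_image_coe_le (fun u' : Fin 7 => ((a, Sum.inr (c, n - 1, Sum.inl u')) : Vx I r))
      (if bp then N1' u else ∅)
    have e3 := encard_image_coe_le (fun u' : Fin 7 => ((a, Sum.inr (c, n + 1, Sum.inl u')) : Vx I r))
      (if bn then N1 u else ∅)
    have e4 := encard_image_coe_le (fun b : Bool => if b then (S.Q a c n).1 else (S.Q a c n).2)
      (if ba && (u = 0 ∨ u = 1) then Finset.univ else ∅)
    refine (Set.encard_le_encard hsub).trans ?_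
    have h5 : (R ∪ (B1 ∪ (B2 ∪ (B3 ∪ B4)))).encard ≤
        R.encard + (B1.encard + (B2.encard + (B3.encard + B4.encard))) := by
      refine (Set.encard_union_le _ _).trans ?_
      gcongr
      refine (Set.encard_union_le _ _).trans ?_
      gcongr
      refine (Set.encard_union_le _ _).trans ?_
      gcongr
      exact Set.encard_union_le _ _
    refine h5.trans ?_
    refine (add_le_add e0 (add_le_add e1 (add_le_add e2 (add_le_add e3 e4)))).trans ?_
    have h6 := ht u
    unfold cnt at h6
    rw [← Nat.cast_add, ← Nat.cast_add, ← Nat.cast_add, ← Nat.cast_add]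
    apply Nat.cast_le.2
    have c2 : (if bp then N1' u else ∅ : Finset (Fin 7)).card = if bp then (N1' u).card else 0 := by
      split_ifs <;> simp
    have c3 : (if bn then N1 u else ∅ : Finset (Fin 7)).card = if bn then (N1 u).card else 0 := by
      split_ifs <;> simp
    have c4 : (if ba && (u = 0 ∨ u = 1) then Finset.univ else ∅ : Finset Bool).card =
        if ba && (u = 0 ∨ u = 1) then 2 else 0 := by
      split_ifs <;> simp
    rw [c2, c3, c4]
    omega
  · -- the other vertices
    have hsub : {w | S.G.Adj (a, Sum.inr (c, n, Sum.inr k)) w ∧ P w} ⊆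
        Set.range (fun k : Fin r => ((a, Sum.inr (c, n, Sum.inr k)) : Vx I r)) := by
      rintro w ⟨hw, hP⟩
      rcases S.adj_inr hw with ⟨-, v', rfl, h⟩ | ⟨-, n', v', h0, rfl, h⟩ | ⟨-, v', rfl, h⟩ |
        ⟨-, h1, h2⟩ | ⟨a', c', j, v', h1, rfl, h2⟩
      · rcases v' with u' | k'
        · exfalso
          have h3 := hsame _ h hP
          simp only [ord] at h3
          have := k.2
          omega
        · exact ⟨k', rfl⟩
      · rcases v' with u' | k' <;> exact absurd h id
      · exact absurd h id
      · exact absurd h1 id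
      · exact absurd hP (hup _ _ _ _ h1 h2)
    refine (Set.encard_le_encard hsub).trans ((encard_range_le _).trans ?_)
    rw [Fintype.card_fin]
    exact_mod_cast Nat.le_add_right _ _

theorem cnt_cut : ∀ u : Fin 7, cnt true true true false u ≤ 3 := by decide

theorem cnt_other : ∀ u : Fin 7, cnt false false true true u ≤ 3 := by decide

theorem cnt_nat : ∀ u : Fin 7, cnt false true false true u ≤ 5 := by decide

/-- The main estimate: `M` is the set of the cut layers, `P` says which neighbours are smaller. -/
theorem count_le (S : Sys I r) {a : I} {c n : ℕ} {v : L r} (M : ℕ → Bool)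
    (P : Vx I r → Prop)
    (hsame : ∀ v', lay v v' → P (a, Sum.inr (c, n, v')) → ord (M n) v' < ord (M n) v)
    (hprev : ∀ n' v', n = n' + 1 → P (a, Sum.inr (c, n', v')) → M n = true)
    (hatt : P (S.Q a c n).1 ∨ P (S.Q a c n).2 → M n = false)
    (hup : ∀ a' c' j v', S.good a' → a < S.lad a' c' j → ¬ P (a', Sum.inr (c', 2 * j + 1, v'))) :
    {w | S.G.Adj (a, Sum.inr (c, n, v)) w ∧ P w}.encard ≤ ((r + 3 : ℕ) : ℕ∞) := by
  rcases hM : M n with _ | _
  · apply count_gen S false false true true P 3 _ _ _ _ hup cnt_other
    · intro v' h1 h2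
      have := hsame v' h1 h2
      rwa [hM] at this
    · intro n' v' h1 h2
      have := hprev n' v' h1 h2
      rw [hM] at this
      exact this
    · intro _ _; rfl
    · intro _; rfl
  · apply count_gen S true true true false P 3 _ _ _ _ hup cnt_cut
    · intro v' h1 h2
      have := hsame v' h1 h2
      rwa [hM] at this
    · intro n' v' h1 h2
      rfl
    · intro _ _; rfl
    · intro h
      have := hatt h
      rw [hM] at this
      exact this.symm

end Pool.Agent.W5h18.ColInd
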