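import Pool.Agent.W5h18.ColInd.Upper

set_option autoImplicit false
set_option linter.unusedSectionVars false

open Cardinal Order Set

namespace Pool.Agent.W5h18.ColInd

open Pool.Agent.Results.MP_279ba3_co.ColoringNumberStep

variable {I : Type} [LinearOrder I] {r : ℕ}

theorem fin_inter (S : Sys I r) {α α' : I} (hα : S.good α) (hα' : S.good α') (hne : α ≠ α')
    (c c' : ℕ) : ∃ b, ∀ j, b ≤ j → ∀ j', S.lad α c j ≠ S.lad α' c' j' := by
  rcases lt_or_gt_of_ne hne with h | h
  · obtain ⟨j0, hj0⟩ := S.lad_cof α' hα' c' α h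
    have h1 : ((S.lad α' c') '' (Set.Iio j0)).Finite := (Set.finite_Iio j0).image _
    have h2 : ((S.lad α c) ⁻¹' ((S.lad α' c') '' (Set.Iio j0))).Finite :=
      h1.preimage ((S.lad_mono α hα c).injective.injOn)
    obtain ⟨b, hb⟩ := h2.bddAbove
    refine ⟨b + 1, fun j hj j' he => ?_⟩
    have h3 : j' < j0 := by
      by_contra hcon
      have h4 : S.lad α' c' j0 ≤ S.lad α' c' j' := (S.lad_mono α' hα' c').monotone (not_lt.1 hcon)
      have h5 := S.lad_lt α hα c j
      rw [he] at h5
      exact absurd (h5.trans (hj0.trans_le h4)) (lt_irrefl _)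
    have h4 : j ≤ b := hb ⟨j', h3, he.symm⟩
    omega
  · obtain ⟨j0, hj0⟩ := S.lad_cof α hα c α' h
    refine ⟨j0, fun j hj j' he => ?_⟩
    have h4 : S.lad α c j0 ≤ S.lad α c j := (S.lad_mono α hα c).monotone hj
    have h5 := S.lad_lt α' hα' c' j'
    rw [← he] at h5
    exact absurd (h5.trans (hj0.trans_le h4)) (lt_irrefl _)

theorem thr (S : Sys I r) (a0 : I) (hI : (Set.Iio a0).Countable) :
    ∃ θ : I → ℕ → ℕ, ∀ α c α' c', S.good α → S.good α' → α < a0 → α' < a0 → α ≠ α' →
      ∀ j j', θ α c ≤ j → θ α' c' ≤ j' → S.lad α c j ≠ S.lad α' c' j' := by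
  classical
  have h1 : ∀ k k' : I × ℕ, ∃ b, S.good k.1 → S.good k'.1 → k.1 ≠ k'.1 →
      ∀ j, b ≤ j → ∀ j', S.lad k.1 k.2 j ≠ S.lad k'.1 k'.2 j' := by
    intro k k'
    by_cases h : S.good k.1 ∧ S.good k'.1 ∧ k.1 ≠ k'.1
    · obtain ⟨b, hb⟩ := fin_inter S h.1 h.2.1 h.2.2 k.2 k'.2
      exact ⟨b, fun _ _ _ => hb⟩
    · exact ⟨0, fun h1 h2 h3 => absurd ⟨h1, h2, h3⟩ h⟩
  choose b hb using h1
  let K : Set (I × ℕ) := Set.Iio a0 ×ˢ Set.univ
  have hK : K.Countable := hI.prod Set.countable_univ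
  obtain ⟨ι, hι⟩ := Set.countable_iff_exists_injOn.1 hK
  have h2 : ∀ k : I × ℕ, ∃ t, ∀ k' ∈ K, ι k' < ι k → b k k' ≤ t := by
    intro k
    have h3 : {k' | k' ∈ K ∧ ι k' < ι k}.Finite := by
      have h4 : (ι '' {k' | k' ∈ K ∧ ι k' < ι k}).Finite := by
        apply (Set.finite_Iio (ι k)).subset
        rintro _ ⟨k', hk', rfl⟩
        exact hk'.2
      exact Set.Finite.of_finite_image h4 (hι.mono fun x hx => hx.1)
    obtain ⟨t, ht⟩ := (h3.image (b k)).bddAbove
    exact ⟨t, fun k' h5 h6 => ht ⟨k', ⟨h5, h6⟩, rfl⟩⟩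
  choose t ht using h2
  refine ⟨fun α c => t (α, c), ?_⟩
  intro α c α' c' hα hα' h1 h2 hne j j' hj hj' he
  have k1 : ((α, c) : I × ℕ) ∈ K := ⟨h1, trivial⟩
  have k2 : ((α', c') : I × ℕ) ∈ K := ⟨h2, trivial⟩
  have h3 : ι (α, c) ≠ ι (α', c') := by
    intro h
    exact hne (congrArg Prod.fst (hι k1 k2 h))
  rcases lt_or_gt_of_ne h3 with h3 | h3
  · exact hb (α', c') (α, c) hα' hα (Ne.symm hne) j' ((ht (α', c') _ k1 h3).trans hj') j he.symm
  · exact hb (α, c) (α', c') hα hα' hne j ((ht (α, c) _ k2 h3).trans hj) j' he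

/-- the cut layers in the countable case -/
def MC (θ n : ℕ) : Bool := decide (n % 2 = 0 ∧ θ ≤ n / 2)

open Classical in
/-- the order in the countable case -/
noncomputable def fC (S : Sys I r) (θ : I → ℕ → ℕ) (lr : I → ℕ → ℕ → ℕ) (v : Vx I r) :
    I ×ₗ WithTop ℕ :=
  match v.2 with
  | Sum.inl _ => toLex (v.1, ⊤)
  | Sum.inr (c, n, u) => if S.good v.1 then
      toLex (S.lad v.1 c (max (n / 2) (θ v.1 c)),
        ((pos r (lr v.1 c n) (MC (θ v.1 c) n) u : ℕ) : WithTop ℕ))
    else toLex (v.1, 0)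

theorem fC_inl (S : Sys I r) (θ : I → ℕ → ℕ) (lr : I → ℕ → ℕ → ℕ) (a : I) (i : ℕ) :
    fC S θ lr (a, Sum.inl i) = toLex (a, ⊤) := rfl

theorem fC_inr (S : Sys I r) (θ : I → ℕ → ℕ) (lr : I → ℕ → ℕ → ℕ) {a : I} (ha : S.good a)
    (c n : ℕ) (u : L r) :
    fC S θ lr (a, Sum.inr (c, n, u)) = toLex (S.lad a c (max (n / 2) (θ a c)),
        ((pos r (lr a c n) (MC (θ a c) n) u : ℕ) : WithTop ℕ)) := if_pos ha

theorem fC_lt (S : Sys I r) (θ : I → ℕ → ℕ) (lr : I → ℕ → ℕ → ℕ) {v : Vx I r} {b : I}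
    (h : v.1 < b) (x : WithTop ℕ) : fC S θ lr v < toLex (b, x) := by
  obtain ⟨a, y⟩ := v
  rcases y with i | ⟨c, n, u⟩
  · rw [fC_inl]
    exact lex_fst_lt _ _ h
  · by_cases ha : S.good a
    · rw [fC_inr S θ lr ha]
      exact lex_fst_lt _ _ ((S.lad_lt a ha c _).trans h)
    · have h1 : fC S θ lr (a, Sum.inr (c, n, u)) = toLex (a, 0) := if_neg ha
      rw [h1]
      exact lex_fst_lt _ _ h

theorem fC_ne_of_down (S : Sys I r) (θ : I → ℕ → ℕ) (lr : I → ℕ → ℕ → ℕ)
    (hlr : ∀ a c n, S.good a → (MC (θ a c) (n + 1) = true → lr a c n < lr a c (n + 1)) ∧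
      (MC (θ a c) (n + 1) = false → lr a c (n + 1) < lr a c n))
    {v w : Vx I r} (h : S.Down v w) : fC S θ lr w ≠ fC S θ lr v := by
  obtain ⟨a, c, n, u, ha, rfl, h⟩ := h
  rcases h with ⟨v', rfl, h⟩ | ⟨n', v', rfl, rfl, h⟩ | ⟨h1, h2⟩
  · rw [fC_inr S θ lr ha, fC_inr S θ lr ha]
    intro h1
    have h2 : ((pos r (lr a c n) (MC (θ a c) n) v' : ℕ) : WithTop ℕ) =
      ((pos r (lr a c n) (MC (θ a c) n) u : ℕ) : WithTop ℕ) := congrArg (fun x => (ofLex x).2) h1
    exact pos_same_ne h (WithTop.coe_injective h2).symm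
  · rw [fC_inr S θ lr ha, fC_inr S θ lr ha]
    intro h1
    have h2 : ((pos r (lr a c n') (MC (θ a c) n') v' : ℕ) : WithTop ℕ) =
      ((pos r (lr a c (n' + 1)) (MC (θ a c) (n' + 1)) u : ℕ) : WithTop ℕ) :=
      congrArg (fun x => (ofLex x).2) h1
    have h3 := WithTop.coe_injective h2
    rcases hM : MC (θ a c) (n' + 1) with _ | _
    · exact absurd h3 (pos_lt_of_lt ((hlr a c n' ha).2 hM)).ne'
    · exact absurd h3 (pos_lt_of_lt ((hlr a c n' ha).1 hM)).ne
  · rw [fC_inr S θ lr ha]
    unfold Sys.Q at h2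
    split_ifs at h2 with hn
    · rcases h2 with rfl | rfl
      · rw [fC_inl]
        intro h3
        have h4 : (⊤ : WithTop ℕ) = ((pos r (lr a c n) (MC (θ a c) n) u : ℕ) : WithTop ℕ) :=
          congrArg (fun x => (ofLex x).2) h3
        exact absurd h4 (WithTop.coe_ne_top).symm
      · rw [fC_inl]
        intro h3
        have h4 : (⊤ : WithTop ℕ) = ((pos r (lr a c n) (MC (θ a c) n) u : ℕ) : WithTop ℕ) :=
          congrArg (fun x => (ofLex x).2) h3
        exact absurd h4 (WithTop.coe_ne_top).symm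
    · have h3 := S.gap_lt a ha c (n / 2)
      have h4 : S.lad a c (n / 2) ≤ S.lad a c (max (n / 2) (θ a c)) :=
        (S.lad_mono a ha c).monotone (le_max_left _ _)
      rcases h2 with rfl | rfl
      · exact (fC_lt S θ lr (h3.1.trans_le h4) _).ne
      · exact (fC_lt S θ lr (h3.2.trans_le h4) _).ne

theorem countable_case [WellFoundedLT I] (S : Sys I r) (a0 : I) (hI : (Set.Iio a0).Countable) :
    Free S.G ∅ {v | v.1 < a0} (r + 3) := by
  obtain ⟨θ, hθ⟩ := thr S a0 hI
  have hex : ∀ (a : I) (c : ℕ), ∃ lr : ℕ → ℕ, ∀ n, (MC (θ a c) (n + 1) = true → lr n < lr (n + 1)) ∧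
      (MC (θ a c) (n + 1) = false → lr (n + 1) < lr n) := by
    intro a c
    apply exists_lr
    intro N
    refine ⟨2 * (N + 1 + θ a c), by omega, ?_⟩
    unfold MC
    rw [decide_eq_true_eq]
    omega
  choose lr hlr using hex
  apply free_of_rank (fC S θ lr)
  · rintro v - w - (h | h)
    · exact (fC_ne_of_down S θ lr (fun a c n _ => hlr a c n) h).symm
    · exact fC_ne_of_down S θ lr (fun a c n _ => hlr a c n) h
  · have hup : ∀ (a : I) (y : ℕ ⊕ (ℕ × ℕ × L r)) (a' : I) (c' j : ℕ) (v' : L r), S.good a' →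
        a < S.lad a' c' j → ¬ (((a', Sum.inr (c', 2 * j + 1, v')) : Vx I r) ∈ (∅ : Set (Vx I r)) ∨
          (((a', Sum.inr (c', 2 * j + 1, v')) : Vx I r) ∈ {v : Vx I r | v.1 < a0} ∧
            fC S θ lr (a', Sum.inr (c', 2 * j + 1, v')) < fC S θ lr (a, y))) := by
      rintro a y a' c' j v' ha' h1 (h | ⟨-, h⟩)
      · exact absurd h (Set.notMem_empty _)
      · rw [fC_inr S θ lr ha'] at h
        have h4 : S.lad a' c' j ≤ S.lad a' c' (max ((2 * j + 1) / 2) (θ a' c')) :=
          (S.lad_mono a' ha' c').monotone ((by omega : j ≤ (2 * j + 1) / 2).trans (le_max_left _ _))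
        exact absurd h (not_lt.2 (fC_lt S θ lr (v := (a, y)) (h1.trans_le h4) _).le)
    rintro ⟨a, y⟩ hv
    rcases y with i | ⟨c, n, v⟩
    · by_cases hemp : ∃ w0, w0 ∈ {w | S.G.Adj (a, Sum.inl i) w ∧ (w ∈ (∅ : Set (Vx I r)) ∨
          (w ∈ {v : Vx I r | v.1 < a0} ∧ fC S θ lr w < fC S θ lr (a, Sum.inl i)))}
      · -- description of the smaller neighbours
        have hdesc : ∀ w ∈ {w | S.G.Adj (a, Sum.inl i) w ∧ (w ∈ (∅ : Set (Vx I r)) ∨
            (w ∈ {v : Vx I r | v.1 < a0} ∧ fC S θ lr w < fC S θ lr (a, Sum.inl i)))},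
            ∃ (a' : I) (j : ℕ) (v' : L r), S.good a' ∧ a' < a0 ∧
              w = (a', Sum.inr (i / 2, 2 * j, v')) ∧ att v' ∧ θ a' (i / 2) ≤ j ∧
              S.lad a' (i / 2) j = a := by
          rintro w ⟨h1, h2⟩
          obtain ⟨a', c', n', v', ha', rfl, hv', h3⟩ := S.adj_inl h1
          rcases h2 with h2 | ⟨h2, h4⟩
          · exact absurd h2 (Set.notMem_empty _)
          have h2' : a' < a0 := h2
          rw [fC_inr S θ lr ha', fC_inl] at h4
          unfold Sys.Q at h3
          split_ifs at h3 with hn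
          · have h5 : a = S.lad a' c' (n' / 2) ∧ i / 2 = c' := by
              rcases h3 with h3 | h3
              · simp only [Prod.mk.injEq, Sum.inl.injEq] at h3
                refine ⟨h3.1, by omega⟩
              · simp only [Prod.mk.injEq, Sum.inl.injEq] at h3
                refine ⟨h3.1, by omega⟩
            obtain ⟨h5, h6⟩ := h5
            have h7 : S.lad a' c' (max (n' / 2) (θ a' c')) ≤ a := by
              by_contra hcon
              exact absurd h4 (not_lt.2 (lex_fst_lt _ _ (not_le.1 hcon)).le)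
            rw [h5] at h7
            have h8 := (S.lad_mono a' ha' c').le_iff_le.1 h7
            refine ⟨a', n' / 2, v', ha', h2', ?_, hv', ?_, ?_⟩
            · rw [h6]
              congr 4
              omega
            · rw [h6]
              exact (le_max_right _ _).trans h8
            · rw [h6]
              exact h5.symm
          · exfalso
            have h5 := S.gap_lt a' ha' c' (n' / 2)
            have h6 : a < S.lad a' c' (n' / 2) := by
              rcases h3 with h3 | h3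
              · rw [← h3] at h5
                exact h5.1
              · rw [← h3] at h5
                exact h5.2
            have h7 : S.lad a' c' (n' / 2) ≤ S.lad a' c' (max (n' / 2) (θ a' c')) :=
              (S.lad_mono a' ha' c').monotone (le_max_left _ _)
            exact absurd h4 (not_lt.2 (lex_fst_lt _ _ (h6.trans_le h7)).le)
        obtain ⟨w0, hw0⟩ := hemp
        obtain ⟨a1, j1, v1, g1, l1, -, -, t1, e1⟩ := hdesc w0 hw0
        have hsub : {w | S.G.Adj (a, Sum.inl i) w ∧ (w ∈ (∅ : Set (Vx I r)) ∨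
            (w ∈ {v : Vx I r | v.1 < a0} ∧ fC S θ lr w < fC S θ lr (a, Sum.inl i)))} ⊆
            {((a1, Sum.inr (i / 2, 2 * j1, Sum.inl 0)) : Vx I r),
              ((a1, Sum.inr (i / 2, 2 * j1, Sum.inl 1)) : Vx I r)} := by
          intro w hw
          obtain ⟨a2, j2, v2, g2, l2, rfl, hv2, t2, e2⟩ := hdesc w hw
          have h1 : a1 = a2 := by
            by_contra hne
            exact hθ a1 (i / 2) a2 (i / 2) g1 g2 l1 l2 hne j1 j2 t1 t2 (e1.trans e2.symm)
          subst h1
          have h2 : j1 = j2 := (S.lad_mono a1 g1 (i / 2)).injective (e1.trans e2.symm)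
          subst h2
          rcases v2 with u | k
          · rcases hv2 with rfl | rfl
            · exact Or.inl rfl
            · exact Or.inr rfl
          · exact absurd hv2 id
        refine (Set.encard_le_encard hsub).trans ((Set.encard_insert_le _ _).trans ?_)
        rw [Set.encard_singleton]
        exact_mod_cast (by omega : 1 + 1 ≤ r + 3)
      · push Not at hemp
        rw [Set.eq_empty_iff_forall_notMem.2 hemp, Set.encard_empty]
        exact bot_le
    · by_cases ha : S.good a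
      · apply count_le S (MC (θ a c)) (fun w => w ∈ (∅ : Set (Vx I r)) ∨
            (w ∈ {v : Vx I r | v.1 < a0} ∧ fC S θ lr w < fC S θ lr (a, Sum.inr (c, n, v))))
        · rintro v' hv' (h | ⟨-, h⟩)
          · exact absurd h (Set.notMem_empty _)
          · rw [fC_inr S θ lr ha, fC_inr S θ lr ha, lex_snd_lt] at h
            exact pos_same_lt.1 (WithTop.coe_lt_coe.1 h)
        · rintro n' v' h0 (h | ⟨-, h⟩)
          · exact absurd h (Set.notMem_empty _)
          · by_contra hM
            have hM : MC (θ a c) n = false := by simpa using hM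
            rw [fC_inr S θ lr ha, fC_inr S θ lr ha] at h
            subst h0
            have h1 : max (n' / 2) (θ a c) = max ((n' + 1) / 2) (θ a c) := by
              unfold MC at hM
              rw [decide_eq_false_iff_not] at hM
              omega
            rw [h1, lex_snd_lt] at h
            exact absurd (WithTop.coe_lt_coe.1 h) (not_lt.2 (pos_lt_of_lt ((hlr a c n').2 hM)).le)
        · intro h
          by_contra hM
          have hM : MC (θ a c) n = true := by simpa using hM
          unfold MC at hM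
          rw [decide_eq_true_eq] at hM
          unfold Sys.Q at h
          rw [if_pos hM.1] at h
          have h1 : ∀ i : ℕ, ¬ (fC S θ lr (S.lad a c (n / 2), Sum.inl i) <
              fC S θ lr (a, Sum.inr (c, n, v))) := by
            intro i h
            rw [fC_inl, fC_inr S θ lr ha, max_eq_left hM.2, lex_snd_lt] at h
            exact absurd h (not_lt.2 le_top)
          rcases h with (h | ⟨-, h⟩) | (h | ⟨-, h⟩)
          · exact absurd h (Set.notMem_empty _)
          · exact h1 _ h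
          · exact absurd h (Set.notMem_empty _)
          · exact h1 _ h
        · exact hup a _
      · refine le_trans (le_of_eq ?_) (bot_le (a := ((r + 3 : ℕ) : ℕ∞)))
        rw [bot_eq_zero, Set.encard_eq_zero, Set.eq_empty_iff_forall_notMem]
        rintro w ⟨h1, h2⟩
        rcases S.adj_inr h1 with h | h | h | h | ⟨a', c', j, v', ha', rfl, h⟩
        · exact ha h.1
        · exact ha h.1
        · exact ha h.1
        · exact ha h.1
        · exact hup a _ a' c' j v' ha' h h2

end Pool.Agent.W5h18.ColInd
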