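import Pool.Agent.W5h18.ColInd.Count

set_option autoImplicit false

open Cardinal Order Set

namespace Pool.Agent.W5h18.ColInd

open Pool.Agent.Results.MP_279ba3_co.ColoringNumberStep

variable {I : Type} [LinearOrder I] {r : ℕ}

theorem exists_lr (M : ℕ → Bool) (hM : ∀ N, ∃ n, N < n ∧ M n = true) :
    ∃ lr : ℕ → ℕ, ∀ n, (M (n + 1) = true → lr n < lr (n + 1)) ∧
      (M (n + 1) = false → lr (n + 1) < lr n) := by
  classical
  let nx : ℕ → ℕ := fun n => Nat.find (hM n)
  have h1 : ∀ n, n < nx n ∧ M (nx n) = true := fun n => Nat.find_spec (hM n)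
  have h2 : ∀ n m, n < m → M m = true → nx n ≤ m := fun n m h3 h4 => Nat.find_min' (hM n) ⟨h3, h4⟩
  refine ⟨fun n => 2 * nx n - n, fun n => ⟨fun h => ?_, fun h => ?_⟩⟩
  · have h3 : nx n = n + 1 := le_antisymm (h2 n (n + 1) (Nat.lt_succ_self n) h) (h1 n).1
    have h4 := (h1 (n + 1)).1
    change 2 * nx n - n < 2 * nx (n + 1) - (n + 1)
    omega
  · have h3 : nx (n + 1) = nx n := by
      apply le_antisymm
      · apply h2 _ _ _ (h1 n).2
        have h4 := (h1 n).1
        have h5 : nx n ≠ n + 1 := by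
          intro h6
          have h7 := (h1 n).2
          rw [h6, h] at h7
          exact absurd h7 (by simp)
        omega
      · apply h2 _ _ _ (h1 (n + 1)).2
        have h4 := (h1 (n + 1)).1
        omega
    have h4 := (h1 n).1
    change 2 * nx (n + 1) - (n + 1) < 2 * nx n - n
    omega

theorem deg_fixed : ∀ u : Fin 7, (N0 u).card + ((N1' u).card + (if u = 0 ∨ u = 1 then 2 else 0)) = 5 := by
  decide

theorem low_card (S : Sys I r) {a : I} (ha : S.good a) {c n : ℕ} {v : L r} (T : Set (Vx I r))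
    (h1 : ∀ v', lay v v' → (a, Sum.inr (c, n + 1, v')) ∈ T)
    (h2 : ∀ v', link v' v → (a, Sum.inr (c, n, v')) ∈ T)
    (h3 : att v → (S.Q a c (n + 1)).1 ∈ T ∧ (S.Q a c (n + 1)).2 ∈ T) :
    ((5 + r : ℕ) : ℕ∞) ≤ T.encard := by
  classical
  rcases v with u | k
  · let R : Set (Vx I r) :=
      (fun k : Fin r => ((a, Sum.inr (c, n + 1, Sum.inr k)) : Vx I r)) '' Set.univ
    let B1 : Set (Vx I r) := (fun u' : Fin 7 => ((a, Sum.inr (c, n + 1, Sum.inl u')) : Vx I r)) ''
      ((N0 u : Finset (Fin 7)) : Set (Fin 7))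
    let B2 : Set (Vx I r) := (fun u' : Fin 7 => ((a, Sum.inr (c, n, Sum.inl u')) : Vx I r)) ''
      ((N1' u : Finset (Fin 7)) : Set (Fin 7))
    let B4 : Set (Vx I r) :=
      (fun b : Bool => if b then (S.Q a c (n + 1)).1 else (S.Q a c (n + 1)).2) ''
      ((if (u = 0 ∨ u = 1) then Finset.univ else ∅ : Finset Bool) : Set Bool)
    have hsub : R ∪ (B1 ∪ (B2 ∪ B4)) ⊆ T := by
      apply Set.union_subset
      · rintro _ ⟨k, -, rfl⟩
        exact h1 _ trivial
      · apply Set.union_subset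
        · rintro _ ⟨u', hu', rfl⟩
          exact h1 _ hu'
        · apply Set.union_subset
          · rintro _ ⟨u', hu', rfl⟩
            exact h2 _ ((N1_iff _ _).2 hu')
          · rintro _ ⟨b, hb, rfl⟩
            split_ifs at hb with hu
            · have h4 := h3 hu
              cases b
              · exact h4.2
              · exact h4.1
            · simp at hb
    have e0 : R.encard = ((r : ℕ) : ℕ∞) := by
      have hinj : Function.Injective
          (fun k : Fin r => ((a, Sum.inr (c, n + 1, Sum.inr k)) : Vx I r)) := by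
        intro x y h
        simpa using h
      rw [hinj.encard_image, Set.encard_univ, ENat.card_eq_coe_fintype_card, Fintype.card_fin]
    have e1 : B1.encard = (((N0 u).card : ℕ) : ℕ∞) := by
      have hinj : Function.Injective
          (fun u' : Fin 7 => ((a, Sum.inr (c, n + 1, Sum.inl u')) : Vx I r)) := by
        intro x y h
        simpa using h
      rw [hinj.encard_image, Set.encard_coe_eq_coe_finsetCard]
    have e2 : B2.encard = (((N1' u).card : ℕ) : ℕ∞) := by
      have hinj : Function.Injective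
          (fun u' : Fin 7 => ((a, Sum.inr (c, n, Sum.inl u')) : Vx I r)) := by
        intro x y h
        simpa using h
      rw [hinj.encard_image, Set.encard_coe_eq_coe_finsetCard]
    have e4 : B4.encard = (((if (u = 0 ∨ u = 1) then 2 else 0 : ℕ) : ℕ) : ℕ∞) := by
      have hinj : Function.Injective
          (fun b : Bool => if b then (S.Q a c (n + 1)).1 else (S.Q a c (n + 1)).2) := by
        have h5 := S.Q_ne ha c (n + 1)
        intro x y h
        cases x <;> cases y
        · rfl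
        · exact absurd h.symm h5
        · exact absurd h h5
        · rfl
      rw [hinj.encard_image, Set.encard_coe_eq_coe_finsetCard]
      split_ifs <;> simp
    have hQ := S.Q_lt ha c (n + 1)
    have d3 : Disjoint B2 B4 := by
      rw [Set.disjoint_left]
      rintro _ ⟨u', _, rfl⟩ ⟨b, _, hb⟩
      cases b
      · simp only [Bool.false_eq_true, if_false] at hb
        rw [hb] at hQ
        exact absurd hQ.2 (lt_irrefl _)
      · simp only [if_true] at hb
        rw [hb] at hQ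
        exact absurd hQ.1 (lt_irrefl _)
    have d2 : Disjoint B1 (B2 ∪ B4) := by
      rw [Set.disjoint_left]
      rintro _ ⟨u', _, rfl⟩ (⟨u'', _, hb⟩ | ⟨b, _, hb⟩)
      · simp at hb
      · cases b
        · simp only [Bool.false_eq_true, if_false] at hb
          rw [hb] at hQ
          exact absurd hQ.2 (lt_irrefl _)
        · simp only [if_true] at hb
          rw [hb] at hQ
          exact absurd hQ.1 (lt_irrefl _)
    have d1 : Disjoint R (B1 ∪ (B2 ∪ B4)) := by
      rw [Set.disjoint_left]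
      rintro _ ⟨k, _, rfl⟩ (⟨u'', _, hb⟩ | ⟨u'', _, hb⟩ | ⟨b, _, hb⟩)
      · simp at hb
      · simp at hb
      · cases b
        · simp only [Bool.false_eq_true, if_false] at hb
          rw [hb] at hQ
          exact absurd hQ.2 (lt_irrefl _)
        · simp only [if_true] at hb
          rw [hb] at hQ
          exact absurd hQ.1 (lt_irrefl _)
    refine le_trans ?_ (Set.encard_le_encard hsub)
    rw [Set.encard_union_eq d1, Set.encard_union_eq d2, Set.encard_union_eq d3, e0, e1, e2, e4]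
    rw [← Nat.cast_add, ← Nat.cast_add, ← Nat.cast_add, deg_fixed u]
    exact_mod_cast (by omega : 5 + r ≤ r + 5)
  · let R : Set (Vx I r) :=
      (fun k : Fin r => ((a, Sum.inr (c, n + 1, Sum.inr k)) : Vx I r)) ''
        ((Finset.univ.erase k : Finset (Fin r)) : Set (Fin r))
    let B1 : Set (Vx I r) := (fun u' : Fin 7 => ((a, Sum.inr (c, n + 1, Sum.inl u')) : Vx I r)) ''
      ((Finset.univ : Finset (Fin 7)) : Set (Fin 7))
    have hsub : R ∪ B1 ⊆ T := by
      apply Set.union_subset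
      · rintro _ ⟨k', hk', rfl⟩
        refine h1 _ ?_
        have : k' ≠ k := by simpa using hk'
        exact this.symm
      · rintro _ ⟨u', _, rfl⟩
        exact h1 _ trivial
    have e0 : R.encard = (((r - 1 : ℕ) : ℕ) : ℕ∞) := by
      have hinj : Function.Injective
          (fun k : Fin r => ((a, Sum.inr (c, n + 1, Sum.inr k)) : Vx I r)) := by
        intro x y h
        simpa using h
      rw [hinj.encard_image, Set.encard_coe_eq_coe_finsetCard, Finset.card_erase_of_mem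
        (Finset.mem_univ _), Finset.card_univ, Fintype.card_fin]
    have e1 : B1.encard = ((7 : ℕ) : ℕ∞) := by
      have hinj : Function.Injective
          (fun u' : Fin 7 => ((a, Sum.inr (c, n + 1, Sum.inl u')) : Vx I r)) := by
        intro x y h
        simpa using h
      rw [hinj.encard_image, Set.encard_coe_eq_coe_finsetCard, Finset.card_univ, Fintype.card_fin]
    have d1 : Disjoint R B1 := by
      rw [Set.disjoint_left]
      rintro _ ⟨k, _, rfl⟩ ⟨u'', _, hb⟩
      simp at hb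
    refine le_trans ?_ (Set.encard_le_encard hsub)
    rw [Set.encard_union_eq d1, e0, e1, ← Nat.cast_add]
    exact_mod_cast (by omega : 5 + r ≤ r - 1 + 7)

theorem adj_same (S : Sys I r) {a : I} (ha : S.good a) {c n : ℕ} {v v' : L r} (h : lay v v') :
    S.G.Adj (a, Sum.inr (c, n, v)) (a, Sum.inr (c, n, v')) :=
  Or.inl ⟨a, c, n, v, ha, rfl, Or.inl ⟨v', rfl, h⟩⟩

theorem adj_prev (S : Sys I r) {a : I} (ha : S.good a) {c n : ℕ} {v v' : L r} (h : link v' v) :
    S.G.Adj (a, Sum.inr (c, n + 1, v)) (a, Sum.inr (c, n, v')) :=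
  Or.inl ⟨a, c, n + 1, v, ha, rfl, Or.inr (Or.inl ⟨n, v', rfl, rfl, h⟩)⟩

theorem adj_att (S : Sys I r) {a : I} (ha : S.good a) {c n : ℕ} {v : L r} (h : att v) :
    S.G.Adj (a, Sum.inr (c, n, v)) (S.Q a c n).1 ∧ S.G.Adj (a, Sum.inr (c, n, v)) (S.Q a c n).2 :=
  ⟨Or.inl ⟨a, c, n, v, ha, rfl, Or.inr (Or.inr ⟨h, Or.inl rfl⟩)⟩,
    Or.inl ⟨a, c, n, v, ha, rfl, Or.inr (Or.inr ⟨h, Or.inr rfl⟩)⟩⟩

theorem not_free (S : Sys I r)
    (club : ∀ (h : I → I) (b : I), ∃ a, S.good a ∧ b < a ∧ ∀ b' < a, h b' < a)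
    (hbd : ∀ s : Set I, s.Countable → ∃ b, ∀ x ∈ s, x < b)
    (X : Set (Vx I r)) (hX : Xᶜ.Finite) : ¬ Free S.G ∅ X (4 + r) := by
  classical
  rintro ⟨ρ, hρ, hfree⟩
  -- ranks of smaller neighbours
  have hW : ∀ b : I, {x : I | ∃ v ∈ X, v.1 = b ∧ ∃ w ∈ X, S.G.Adj v w ∧ ρ w < ρ v ∧ w.1 = x}.Countable := by
    intro b
    have h1 : {x : I | ∃ v ∈ X, v.1 = b ∧ ∃ w ∈ X, S.G.Adj v w ∧ ρ w < ρ v ∧ w.1 = x} ⊆
        ⋃ y : ℕ ⊕ (ℕ × ℕ × L r), {x : I | ((b, y) : Vx I r) ∈ X ∧ ∃ w ∈ X, S.G.Adj (b, y) w ∧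
          ρ w < ρ (b, y) ∧ w.1 = x} := by
      rintro x ⟨⟨b', y⟩, hv, rfl, h⟩
      exact Set.mem_iUnion.2 ⟨y, hv, h⟩
    refine Set.Countable.mono h1 (Set.countable_iUnion fun y => ?_)
    by_cases hy : ((b, y) : Vx I r) ∈ X
    · have h2 := hfree (b, y) hy
      have h3 := Set.finite_of_encard_le_coe h2
      refine ((h3.image Prod.fst).subset ?_).countable
      rintro x ⟨-, w, hw, h4, h5, rfl⟩
      exact ⟨w, ⟨h4, Or.inr ⟨hw, h5⟩⟩, rfl⟩
    · have : {x : I | ((b, y) : Vx I r) ∈ X ∧ ∃ w ∈ X, S.G.Adj (b, y) w ∧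
          ρ w < ρ (b, y) ∧ w.1 = x} = ∅ := by
        ext x
        simp only [Set.mem_ofPred_eq, Set.mem_empty_iff_false, iff_false]
        exact fun h => hy h.1
      rw [this]
      exact Set.countable_empty
  choose h hh using fun b => hbd _ (hW b)
  obtain ⟨b0, hb0⟩ := hbd (Prod.fst '' Xᶜ) (hX.image _).countable
  obtain ⟨a, ha, hba, hcl⟩ := club h b0
  have hcl' : ∀ v ∈ X, v.1 < a → ∀ w ∈ X, S.G.Adj v w → ρ w < ρ v → w.1 < a := by
    intro v hv hva w hw hvw hlt
    exact (hh v.1 w.1 ⟨v, hv, rfl, w, hw, hvw, hlt, rfl⟩).trans (hcl _ hva)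
  obtain ⟨c, hc⟩ := S.F_surj a ha Xᶜ hX (fun x hx => (hb0 _ ⟨x, hx, rfl⟩).trans hba)
  have hmem : ∀ y, ((a, y) : Vx I r) ∈ X := by
    intro y
    by_contra hcon
    exact absurd ((hb0 _ ⟨_, hcon, rfl⟩).trans hba) (lt_irrefl _)
  have hQmem : ∀ n, (S.Q a c n).1 ∈ X ∧ (S.Q a c n).2 ∈ X := by
    intro n
    have h1 := S.Q_notMem ha c n
    rw [hc] at h1
    simpa using h1
  have hQlt : ∀ n (v : L r), att v → ρ (S.Q a c n).1 < ρ (a, Sum.inr (c, n, v)) ∧
      ρ (S.Q a c n).2 < ρ (a, Sum.inr (c, n, v)) := by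
    intro n v hv
    have h1 := adj_att S ha (c := c) (n := n) hv
    have h2 := S.Q_lt ha c n
    constructor
    · by_contra hcon
      rcases lt_or_eq_of_le (not_lt.1 hcon) with h3 | h3
      · exact absurd (hcl' _ (hQmem n).1 h2.1 _ (hmem _) h1.1.symm h3) (lt_irrefl _)
      · exact h1.1.ne (hρ h3)
    · by_contra hcon
      rcases lt_or_eq_of_le (not_lt.1 hcon) with h3 | h3
      · exact absurd (hcl' _ (hQmem n).2 h2.2 _ (hmem _) h1.2.symm h3) (lt_irrefl _)
      · exact h1.2.ne (hρ h3)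
  have hmax : ∀ n, ∃ v : L r, ∀ v', ρ (a, Sum.inr (c, n, v')) ≤ ρ (a, Sum.inr (c, n, v)) := by
    intro n
    exact Finite.exists_max (fun v : L r => ρ (a, Sum.inr (c, n, v)))
  choose mx hmx using hmax
  have hdec : ∀ n, ρ (a, Sum.inr (c, n + 1, mx (n + 1))) < ρ (a, Sum.inr (c, n, mx n)) := by
    intro n
    by_contra hcon
    have hcon := not_lt.1 hcon
    have h1 := hfree (a, Sum.inr (c, n + 1, mx (n + 1))) (hmem _)
    have h2 := low_card S ha (c := c) (n := n) (v := mx (n + 1))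
      {w | S.G.Adj (a, Sum.inr (c, n + 1, mx (n + 1))) w ∧ (w ∈ (∅ : Set (Vx I r)) ∨
        (w ∈ X ∧ ρ w < ρ (a, Sum.inr (c, n + 1, mx (n + 1)))))} ?_ ?_ ?_
    · have h3 := h2.trans h1
      have h4 : 5 + r ≤ 4 + r := by exact_mod_cast h3
      omega
    · intro v' hv'
      have h3 := adj_same S ha (c := c) (n := n + 1) hv'
      refine ⟨h3, Or.inr ⟨hmem _, lt_of_le_of_ne (hmx (n + 1) v') ?_⟩⟩
      intro h4
      exact h3.ne (hρ h4).symm
    · intro v' hv'
      have h3 := adj_prev S ha (c := c) (n := n) hv'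
      refine ⟨h3, Or.inr ⟨hmem _, lt_of_le_of_ne ((hmx n v').trans hcon) ?_⟩⟩
      intro h4
      exact h3.ne (hρ h4).symm
    · intro hv
      have h3 := adj_att S ha (c := c) (n := n + 1) hv
      have h4 := hQlt (n + 1) _ hv
      exact ⟨⟨h3.1, Or.inr ⟨(hQmem _).1, h4.1⟩⟩, ⟨h3.2, Or.inr ⟨(hQmem _).2, h4.2⟩⟩⟩
  obtain ⟨n, hn⟩ := WellFounded.not_rel_apply_succ (r := ((· < ·) : Ordinal → Ordinal → Prop))
    (fun n => ρ (a, Sum.inr (c, n, mx n)))
  exact hn (hdec n)

end Pool.Agent.W5h18.ColInd
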