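import Pool.Agent.W5h18.ColInd.Lower

set_option autoImplicit false
set_option linter.unusedSectionVars false

open Cardinal Order Set

namespace Pool.Agent.W5h18.ColInd

open Pool.Agent.Results.MP_279ba3_co.ColoringNumberStep

variable {I : Type} [LinearOrder I] {r : ℕ}

theorem lex_fst_lt {T : Type} [LinearOrder T] {a b : I} (x y : T) (h : a < b) :
    (toLex (a, x) : I ×ₗ T) < toLex (b, y) := by
  rw [Prod.Lex.toLex_lt_toLex]
  exact Or.inl h

theorem lex_snd_lt {T : Type} [LinearOrder T] {a : I} {x y : T} :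
    (toLex (a, x) : I ×ₗ T) < toLex (a, y) ↔ x < y := by
  rw [Prod.Lex.toLex_lt_toLex]
  simp

/-- position inside of a gadget -/
def pos (r l : ℕ) (m : Bool) (v : L r) : ℕ := l * (r + 7) + ord m v

theorem pos_lt_of_lt {l l' : ℕ} {m m' : Bool} {v v' : L r} (h : l < l') :
    pos r l m v < pos r l' m' v' := by
  unfold pos
  have h1 := ord_lt m v
  nlinarith [Nat.mul_le_mul_right (r + 7) (Nat.succ_le_of_lt h)]

theorem pos_same_lt {l : ℕ} {m : Bool} {v v' : L r} : pos r l m v < pos r l m v' ↔ ord m v < ord m v' := by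
  unfold pos
  omega

theorem pos_same_ne {l : ℕ} {m : Bool} {v v' : L r} (h : lay v v') : pos r l m v ≠ pos r l m v' := by
  unfold pos
  intro h1
  have h2 : ord m v = ord m v' := by omega
  have h3 := ord_inj m h2
  subst h3
  exact lay_irrefl _ h

/-- the order for the upper bound -/
def fU (v : Vx I r) : I ×ₗ ℕ :=
  toLex (v.1, match v.2 with
    | Sum.inl _ => 0
    | Sum.inr (_, n, u) => pos r n false u)

theorem fU_inr (a : I) (c n : ℕ) (u : L r) :
    (fU ((a, Sum.inr (c, n, u)) : Vx I r)) = toLex (a, pos r n false u) := rfl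

theorem fU_lt_of_lt {v w : Vx I r} (h : v.1 < w.1) : fU v < fU w := by
  unfold fU
  exact lex_fst_lt _ _ h

theorem fU_ne_of_down (S : Sys I r) {v w : Vx I r} (h : S.Down v w) : fU w ≠ fU v := by
  obtain ⟨a, c, n, u, ha, rfl, h⟩ := h
  rcases h with ⟨v', rfl, h⟩ | ⟨n', v', rfl, rfl, h⟩ | ⟨h1, h2⟩
  · rw [fU_inr, fU_inr]
    intro h1
    have h2 := congrArg (fun x => (ofLex x).2) h1
    exact pos_same_ne h h2.symm
  · rw [fU_inr, fU_inr]
    intro h1
    have h2 := congrArg (fun x => (ofLex x).2) h1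
    exact absurd h2 (pos_lt_of_lt (Nat.lt_succ_self n')).ne
  · have h3 := S.Q_lt ha c n
    rcases h2 with rfl | rfl
    · exact (fU_lt_of_lt h3.1).ne
    · exact (fU_lt_of_lt h3.2).ne

theorem upper [WellFoundedLT I] (S : Sys I r) : Free S.G ∅ Set.univ (5 + r) := by
  apply free_of_rank (T := I ×ₗ ℕ) fU
  · rintro v - w - (h | h)
    · exact (fU_ne_of_down S h).symm
    · exact fU_ne_of_down S h
  · rintro ⟨a, y⟩ -
    rcases y with i | ⟨c, n, v⟩
    · refine le_trans (le_of_eq ?_) (bot_le (a := ((5 + r : ℕ) : ℕ∞)))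
      rw [bot_eq_zero]
      rw [Set.encard_eq_zero, Set.eq_empty_iff_forall_notMem]
      rintro w ⟨h1, h2⟩
      obtain ⟨a', c', n', v', ha', rfl, -, h3⟩ := S.adj_inl h1
      have h4 := S.Q_lt ha' c' n'
      have h5 : a < a' := by
        rcases h3 with h3 | h3
        · rw [← h3] at h4; exact h4.1
        · rw [← h3] at h4; exact h4.2
      rcases h2 with h2 | h2
      · exact h2
      · exact absurd (fU_lt_of_lt (v := ((a, Sum.inl i) : Vx I r))
          (w := (a', Sum.inr (c', n', v'))) h5) (not_lt.2 h2.2.le)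
    · have := count_gen S (a := a) (c := c) (n := n) (v := v) false true false true
        (fun w => w ∈ (∅ : Set (Vx I r)) ∨ (w ∈ (Set.univ : Set (Vx I r)) ∧
          fU w < fU ((a, Sum.inr (c, n, v)) : Vx I r))) 5
        ?_ ?_ ?_ ?_ ?_ cnt_nat
      · rw [add_comm 5 r]
        exact this
      · rintro v' hv' (h | ⟨-, h⟩)
        · exact absurd h (Set.notMem_empty _)
        · rw [fU_inr, fU_inr, lex_snd_lt, pos_same_lt] at h
          exact h
      · intro n' v' h1 h2
        rfl
      · rintro v' (h | ⟨-, h⟩)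
        · exact absurd h (Set.notMem_empty _)
        · rw [fU_inr, fU_inr, lex_snd_lt] at h
          exact absurd h (not_lt.2 (pos_lt_of_lt (Nat.lt_succ_self n)).le)
      · intro _; rfl
      · rintro a' c' j v' ha' h1 (h | ⟨-, h⟩)
        · exact absurd h (Set.notMem_empty _)
        · have h2 : a < a' := h1.trans (S.lad_lt a' ha' c' j)
          exact absurd (fU_lt_of_lt (v := ((a, Sum.inr (c, n, v)) : Vx I r))
            (w := (a', Sum.inr (c', 2 * j + 1, v'))) h2) (not_lt.2 h.le)

end Pool.Agent.W5h18.ColInd
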